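import Pool.Agent.P.MP_5ab436_an.Main

set_option autoImplicit false

open MeasureTheory
open scoped ENNReal InnerProductSpace

namespace Pool.Agent.Results.MP_5ab436_an.BoundedFiniteness

section defs

variable {E : Type} [NormedAddCommGroup E] [InnerProductSpace ℝ E] [MeasurableSpace E]

/-- `g` is the weak (distributional) gradient of `u`: for every smooth compactly supported test
function `φ` and every direction `e`, `∫ u ∂_e φ = - ∫ ⟨g, e⟩ φ`. -/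
def IsWeakGradient (μ : Measure E) (u : E → ℝ) (g : E → E) : Prop :=
  ∀ φ : E → ℝ, ContDiff ℝ (⊤ : ℕ∞) φ → HasCompactSupport φ → ∀ e : E,
    ∫ x, u x * fderiv ℝ φ x e ∂μ = -∫ x, ⟪g x, e⟫_ℝ * φ x ∂μ

/-- The space `H¹_V`: the `u ∈ L²` having a weak gradient in `L²`, with `∫ V u² < ∞`. -/
def H1V (μ : Measure E) (V : E → ℝ≥0∞) : Set (Lp ℝ 2 μ) :=
  {u | (∃ g : Lp E 2 μ, IsWeakGradient μ u g) ∧ ∫⁻ x, V x * ‖u x‖ₑ ^ 2 ∂μ < ⊤}

/-- The quadratic form `∫ |∇u|² + ∫ V u²` (the weak gradient in `L²` is unique when it exists, so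
the infimum just picks it). -/
noncomputable def energy (μ : Measure E) (V : E → ℝ≥0∞) (u : E → ℝ) : ℝ≥0∞ :=
  (⨅ (g : Lp E 2 μ) (_ : IsWeakGradient μ u g), ∫⁻ x, ‖g x‖ₑ ^ 2 ∂μ) +
    ∫⁻ x, V x * ‖u x‖ₑ ^ 2 ∂μ

/-- The Rayleigh quotient. -/
noncomputable def rayleigh (μ : Measure E) (V : E → ℝ≥0∞) (u : E → ℝ) : ℝ≥0∞ :=
  energy μ V u / ∫⁻ x, ‖u x‖ₑ ^ 2 ∂μ

/-- The `k`-th min-max value of `R` on `D ⊆ X`: the infimum, over `k`-dimensional subspaces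
`S ⊆ D`, of the supremum of `R` over `S \ {0}`. -/
noncomputable def minMax {X : Type} [AddCommGroup X] [Module ℝ X] (D : Set X) (R : X → ℝ≥0∞)
    (k : ℕ) : ℝ≥0∞ :=
  ⨅ (S : Submodule ℝ X) (_ : Module.finrank ℝ S = k) (_ : (S : Set X) ⊆ D),
    ⨆ (u : X) (_ : u ∈ S) (_ : u ≠ 0), R u

/-- The `k`-th min-max eigenvalue `λ_k(V)` of `-Δ + V`. -/
noncomputable def eigenvalue (μ : Measure E) (V : E → ℝ≥0∞) (k : ℕ) : ℝ≥0∞ :=
  minMax (H1V μ V) (fun u => rayleigh μ V u) k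

/-- The class `𝒜_p`: Lebesgue measurable `V : ℝ^d → [0, ∞]` with `∫ V^(-p) ≤ 1`
(in `[0, ∞]`, `∞^(-p) = 0` and `0^(-p) = ∞`). -/
def admissible (μ : Measure E) (p : ℝ) : Set (E → ℝ≥0∞) :=
  {V | AEMeasurable V μ ∧ ∫⁻ x, V x ^ (-p) ∂μ ≤ 1}

/-- `V` is an optimal potential for `λ_k`: a minimiser of `λ_k` over `𝒜_p`. -/
def IsOptimal (μ : Measure E) (p : ℝ) (k : ℕ) (V : E → ℝ≥0∞) : Prop :=
  V ∈ admissible μ p ∧ ∀ W ∈ admissible μ p, eigenvalue μ V k ≤ eigenvalue μ W k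

/-- The set of finiteness `{V < ∞}` is bounded up to a null set. -/
def BoundedFinitenessSet (μ : Measure E) (V : E → ℝ≥0∞) : Prop :=
  ∃ R : ℝ, ∀ᵐ x ∂μ, V x < ⊤ → ‖x‖ ≤ R

end defs

/-- For every dimension `d ≥ 1`, exponent `p > 0` and `k ≥ 1`, every minimiser `V` of `λ_k` over
the class of potentials with `∫ V^(-p) ≤ 1` has a bounded set of finiteness (up to a null set). -/
theorem result (d : ℕ) (hd : 1 ≤ d) (p : ℝ) (hp : 0 < p) (k : ℕ) (hk : 1 ≤ k)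
    (V : EuclideanSpace ℝ (Fin d) → ℝ≥0∞) (hV : IsOptimal volume p k V) :
    BoundedFinitenessSet volume V :=
  Pool.Agent.P.MP_5ab436_an.bounded_finiteness_set hd hp hk hV.1 hV.2

end Pool.Agent.Results.MP_5ab436_an.BoundedFiniteness
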